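import Pool.Agent.N963.KL.Stm
import Pool.Agent.N963.GN.C6
import Pool.Agent.N134.GN.C2
import Pool.Agent.N963.GN.F

set_option autoImplicit false

/-!
# Task REP: the integral representation of `φ(D) Ξ` (helper693, project KL)
-/

namespace Pool.Agent.N693.KL

open Complex Filter Topology MeasureTheory Polynomial
open scoped ComplexConjugate
open Pool.Agent.N963.GN Pool.Agent.N963.KL Pool.Agent.Helper242

lemma kt_eq (n : ℕ) (t : ℝ) : kt n t = 2 * ((2 * ((n : ℝ) + 1) ^ 4 * Real.pi ^ 2 *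
    Real.exp (9 * (t / 2)) - 3 * ((n : ℝ) + 1) ^ 2 * Real.pi * Real.exp (5 * (t / 2))) *
      Real.exp (-(((n : ℝ) + 1) ^ 2 * Real.pi * Real.exp (4 * (t / 2))))) := by
  unfold kt
  rw [show 9 * (t / 2) = 9 * t / 2 by ring, show 5 * (t / 2) = 5 * t / 2 by ring,
    show 4 * (t / 2) = 2 * t by ring, show ((n : ℝ) + 1) ^ 2 * Real.pi * Real.exp (2 * t) =
      Real.pi * ((n : ℝ) + 1) ^ 2 * Real.exp (2 * t) by ring]
  ring

lemma summable_kt (t : ℝ) : Summable fun n : ℕ => kt n t := by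
  refine ((RK.summable_Phi (t / 2)).mul_left 2).congr fun n => ?_
  rw [kt_eq]

lemma Kx_eq (t : ℝ) : Kx t = 2 * RK.Phi (t / 2) := by
  unfold Kx RK.Phi
  rw [← tsum_mul_left]
  exact tsum_congr fun n => kt_eq n t

lemma Kx_even (t : ℝ) : Kx (-t) = Kx t := by
  rw [Kx_eq, Kx_eq, neg_div, RK.Phi_even]

lemma Kx_cont : Continuous Kx := by
  have h : Kx = fun t => 2 * RK.Phi (t / 2) := funext Kx_eq
  rw [h]
  exact continuous_const.mul (RK.continuous_Phi.comp (continuous_id.div_const 2))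

lemma exp_int (C : ℝ) : Integrable (fun u : ℝ => C * Real.exp (-|u|)) := by
  have h : Integrable (fun u : ℝ => Real.exp (-|u|)) := by
    have h1 : IntegrableOn (fun u : ℝ => Real.exp (-|u|)) (Set.Ioi 0) := by
      refine (integrableOn_exp_neg_Ioi 0).congr_fun (fun u hu => ?_) measurableSet_Ioi
      rw [abs_of_pos (Set.mem_Ioi.1 hu)]
    have h2 : IntegrableOn (fun u : ℝ => Real.exp (-|u|)) (Set.Iic 0) := by
      refine (integrableOn_exp_Iic 0).congr_fun (fun u hu => ?_) measurableSet_Iic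
      rw [abs_of_nonpos (Set.mem_Iic.1 hu), neg_neg]
    have := h2.union h1
    rwa [Set.Iic_union_Ioi, integrableOn_univ] at this
  exact h.const_mul C

lemma Kx_bound (M : ℝ) : ∃ C : ℝ, ∀ t : ℝ, |Kx t| * Real.exp (M * t ^ 2) ≤ C * Real.exp (-|t|) := by
  obtain ⟨A, hA0, hA⟩ := RK.PhiC_bound (Y := 0) le_rfl (by positivity)
  set D : ℝ := 6 * (2 + |M|) + |M| * (2 + |M|) ^ 2 with hD
  refine ⟨2 * A * Real.exp D, fun t => ?_⟩
  have h1 := hA ((t / 2 : ℝ) : ℂ) (by simp)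
  rw [RK.PhiC_ofReal, mul_zero, Real.cos_zero, mul_one, Complex.ofReal_re, Complex.norm_real,
    Real.norm_eq_abs] at h1
  have h0 : |Kx t| = 2 * |RK.Phi (t / 2)| := by rw [Kx_eq, abs_mul, abs_two]
  have h2 : 9 * |t / 2| - Real.pi * Real.exp (4 * |t / 2|) + M * t ^ 2 ≤ D + -|t| := by
    set u : ℝ := |t| with hu
    have hu0 : 0 ≤ u := abs_nonneg t
    have hu2 : t ^ 2 = u ^ 2 := by rw [hu, sq_abs]
    have hu3 : |t / 2| = u / 2 := by rw [abs_div, abs_two]
    rw [hu3, hu2]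
    have h3 : (2 * u) ^ 3 / 6 ≤ Real.exp (4 * (u / 2)) := by
      have := Real.pow_div_factorial_le_exp (2 * u) (by positivity) 3
      norm_num [Nat.factorial] at this
      rw [show 4 * (u / 2) = 2 * u by ring]
      linarith
    have h4 : 4 * u ^ 3 ≤ Real.pi * Real.exp (4 * (u / 2)) := by
      have h5 := Real.pi_gt_three
      have h6 : 3 * ((2 * u) ^ 3 / 6) ≤ Real.pi * Real.exp (4 * (u / 2)) :=
        mul_le_mul h5.le h3 (by positivity) (by linarith)
      have h7 : 3 * ((2 * u) ^ 3 / 6) = 4 * u ^ 3 := by ring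
      linarith
    have h5 : M * u ^ 2 ≤ |M| * u ^ 2 := mul_le_mul_of_nonneg_right (le_abs_self M) (sq_nonneg u)
    have h6 : 0 ≤ |M| := abs_nonneg M
    have h10 : 0 ≤ D := by positivity
    by_cases h7 : 2 + |M| ≤ u
    · have h8 : u ^ 2 * (2 + |M|) ≤ u ^ 2 * u := mul_le_mul_of_nonneg_left h7 (sq_nonneg u)
      have h9 : 2 ≤ u := by linarith
      have h11 : 0 ≤ u * (u - 2) * (u + 2) := by
        have : 0 ≤ u - 2 := by linarith
        positivity
      have h12 : u ^ 3 = u ^ 2 * u := by ring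
      nlinarith [sq_nonneg u]
    · push Not at h7
      have h8 : u ^ 2 ≤ (2 + |M|) ^ 2 := pow_le_pow_left₀ hu0 h7.le 2
      have h9 : |M| * u ^ 2 ≤ |M| * (2 + |M|) ^ 2 := mul_le_mul_of_nonneg_left h8 h6
      have h13 : 0 ≤ u ^ 3 := by positivity
      linarith
  rw [h0]
  calc 2 * |RK.Phi (t / 2)| * Real.exp (M * t ^ 2)
      ≤ 2 * (A * Real.exp (9 * |t / 2| - Real.pi * Real.exp (4 * |t / 2|))) *
          Real.exp (M * t ^ 2) := by gcongr
    _ = 2 * A * Real.exp (9 * |t / 2| - Real.pi * Real.exp (4 * |t / 2|) + M * t ^ 2) := by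
        rw [Real.exp_add]
        ring
    _ ≤ 2 * A * Real.exp (D + -|t|) := by gcongr
    _ = 2 * A * Real.exp D * Real.exp (-|t|) := by
        rw [Real.exp_add]
        ring

lemma Kx_int (M : ℝ) : Integrable (fun t : ℝ => |Kx t| * Real.exp (M * t ^ 2)) := by
  obtain ⟨C, hC⟩ := Kx_bound M
  refine (exp_int C).mono' ?_ (Eventually.of_forall fun t => ?_)
  · exact (Kx_cont.abs.mul (by fun_prop)).aestronglyMeasurable
  · rw [Real.norm_eq_abs, abs_mul, abs_abs, Real.abs_exp]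
    exact hC t

lemma Kx_wt : Wt (fun t : ℝ => ((Kx t : ℝ) : ℂ)) := by
  refine Wt.of_norm (Complex.continuous_ofReal.comp Kx_cont).aestronglyMeasurable fun M hM => ?_
  have h := (Kx_int M).const_mul (Real.exp M)
  refine h.mono' ?_ (Eventually.of_forall fun t => ?_)
  · exact (((Complex.continuous_ofReal.comp Kx_cont).norm).mul (by fun_prop)).aestronglyMeasurable
  · rw [norm_mul, norm_norm, Complex.norm_real, Real.norm_eq_abs, Real.norm_eq_abs, Real.abs_exp]
    have h1 : Real.exp (M * |t|) ≤ Real.exp M * Real.exp (M * t ^ 2) := by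
      rw [← Real.exp_add, Real.exp_le_exp]
      have h2 : |t| ≤ 1 + t ^ 2 := by
        rw [← sq_abs t]
        nlinarith [sq_nonneg (|t| - 1), abs_nonneg t]
      nlinarith [mul_le_mul_of_nonneg_left h2 hM]
    calc |Kx t| * Real.exp (M * |t|) ≤ |Kx t| * (Real.exp M * Real.exp (M * t ^ 2)) :=
          mul_le_mul_of_nonneg_left h1 (abs_nonneg _)
      _ = _ := by ring

theorem Lt_Kx (z : ℂ) : Lt (fun t : ℝ => ((Kx t : ℝ) : ℂ)) z = Xi z := by
  have h1 : ∫ t : ℝ, (fun u : ℝ => 2 * (((RK.Phi u : ℝ) : ℂ) * cexp (I * (2 * z) * u))) (t / 2) =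
      |(2 : ℝ)| • ∫ u : ℝ, (fun u : ℝ => 2 * (((RK.Phi u : ℝ) : ℂ) * cexp (I * (2 * z) * u))) u :=
    Measure.integral_comp_div
      (fun u : ℝ => 2 * (((RK.Phi u : ℝ) : ℂ) * cexp (I * (2 * z) * u))) 2
  have h2 : Lt (fun t : ℝ => ((Kx t : ℝ) : ℂ)) z =
      ∫ t : ℝ, (fun u : ℝ => 2 * (((RK.Phi u : ℝ) : ℂ) * cexp (I * (2 * z) * u))) (t / 2) := by
    unfold Lt
    refine integral_congr_ae (Eventually.of_forall fun t => ?_)
    simp only
    rw [Kx_eq]
    push_cast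
    rw [show I * (2 * z) * ((t : ℂ) / 2) = I * z * t by ring]
    ring
  have h3 := Pool.Agent.N963.GNF.Lt_eq (2 * z)
  have h4 : Lt (fun u : ℝ => ((RK.Phi u : ℝ) : ℂ)) (2 * z) =
      ∫ u : ℝ, ((RK.Phi u : ℝ) : ℂ) * cexp (I * (2 * z) * u) := rfl
  have h5 : Pool.Agent.H24R2.JP.XX (-(I * (2 * z) / 2)) = 8 * Xi z := by
    rw [Pool.Agent.H24R2.JP.B1h.XX_neg, Pool.Agent.H24R2.JP.XX, Xi]
    rw [show (1 / 2 + I * (2 * z) / 2 : ℂ) = 1 / 2 + I * z by ring]
    ring
  rw [h2, h1, abs_two]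
  simp only
  rw [integral_const_mul, ← h4, h3, Complex.real_smul, h5]
  push_cast
  ring

lemma diff_of {φ : ℂ → ℂ} {Q : ℕ → ℝ[X]}
    (hT : TendstoLocallyUniformly (fun (N : ℕ) (w : ℂ) => aeval w (Q N)) φ atTop) :
    Differentiable ℂ φ := by
  have h0 : ∀ P : ℝ[X], Differentiable ℂ (fun w : ℂ => aeval w P) := by
    intro P
    have h : (fun w : ℂ => aeval w P) = fun w : ℂ => (P.map (algebraMap ℝ ℂ)).eval w := by
      funext w
      rw [Polynomial.aeval_def, Polynomial.eval_map]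
    rw [h]
    exact (P.map (algebraMap ℝ ℂ)).differentiable
  have h1 := (tendstoLocallyUniformlyOn_univ.2 hT).differentiableOn
    (Eventually.of_forall fun N => (h0 (Q N)).differentiableOn) isOpen_univ
  exact differentiableOn_univ.1 h1

/-- **Task REP.** -/
theorem rep : S_REP := by
  refine ⟨Kx_even, summable_kt, Kx_cont, Kx_int, ?_⟩
  intro φ G hφ hG z
  obtain ⟨hne, Q, hQ, hT⟩ := hφ
  have hd : Differentiable ℂ φ := diff_of hT
  obtain ⟨M, hM0, N0, hM⟩ := Pool.Agent.N134.GN.c2 φ Q hne hQ hT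
  have hb : ∀ s : ℂ, ‖φ s‖ ≤ M * Real.exp (M * ‖s‖ ^ 2) := by
    intro s
    have h1 : Tendsto (fun N : ℕ => ‖aeval s (Q N)‖) atTop (𝓝 ‖φ s‖) := ((tendstoLocallyUniformlyOn_univ.2 hT).tendsto_at (Set.mem_univ s)).norm
    refine le_of_tendsto h1 ?_
    filter_upwards [eventually_ge_atTop N0] with N hN
    exact hM N hN s
  have hk2 : ∀ M : ℝ, Integrable (fun u : ℝ => ‖((Kx u : ℝ) : ℂ)‖ * Real.exp (M * u ^ 2)) := by
    intro M
    refine (Kx_int M).congr (Eventually.of_forall fun t => ?_)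
    simp only [Complex.norm_real, Real.norm_eq_abs]
  have h2 := Pool.Agent.N963.GNC6.sum_Lt Kx_wt hk2 hd hb z
  have h3 : Lt (fun t : ℝ => ((Kx t : ℝ) : ℂ)) = Xi := funext Lt_Kx
  rw [h3] at h2
  have h4 := hG z
  exact h4.unique h2

end Pool.Agent.N693.KL
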